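import Mathlib
import Pool.Agent.H4.ThinCode

set_option autoImplicit false

namespace Pool.Agent.Results.MP_d2d48a_co.Counter

open Finset

theorem result (α : ℝ) (hα : 0 < α) (d : ℕ) (hd : 1 ≤ d) :
    ∃ (n : ℕ) (C : Submodule (ZMod 2) (Fin n → ZMod 2)) (H : Fin d → Finset (Fin n)),
      1 ≤ n ∧ (∀ i j, i ≠ j → Disjoint (H i) (H j)) ∧
      (∀ i, ∀ c ∈ C, c ≠ 0 → ∃ x ∈ H i, c x ≠ 0) ∧
      ¬ ∃ S : Finset (Fin n), ∀ c ∈ C, c ≠ 0 →
        α * (hammingNorm c : ℝ) ≤ ((S.filter (fun x => c x ≠ 0)).card : ℝ) ∧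
        (S.filter (fun x => c x ≠ 0)).card < hammingNorm c := by
  obtain ⟨L, hL⟩ := exists_nat_gt ((d : ℝ) / α)
  let e : H4.ThinCode.Idx L d ≃ Fin (Fintype.card (H4.ThinCode.Idx L d)) := Fintype.equivFin _
  let f := (LinearMap.funLeft (ZMod 2) (ZMod 2) e.symm) ∘ₗ H4.ThinCode.enc L d
  have hf : ∀ v x, f v x = H4.ThinCode.enc L d v (e.symm x) := fun _ _ => rfl
  have hne : ∀ v, f v ≠ 0 ↔ H4.ThinCode.enc L d v ≠ 0 := by
    intro v
    rw [Function.ne_iff, Function.ne_iff]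
    constructor
    · rintro ⟨x, hx⟩; exact ⟨e.symm x, hx⟩
    · rintro ⟨x, hx⟩; exact ⟨e x, by simpa [hf] using hx⟩
  refine ⟨_, LinearMap.range f, fun i => univ.filter (fun x => H4.ThinCode.lab (e.symm x) = i),
    ?_, ?_, ?_, ?_⟩
  · exact Fintype.card_pos_iff.2 ⟨Sum.inr (fun _ => ⟨0, hd⟩, ⟨0, hd⟩)⟩
  · intro i j hij
    rw [disjoint_filter]
    intro x _ h1 h2
    exact hij (h1.symm.trans h2)
  · rintro i c ⟨v, rfl⟩ hc
    obtain ⟨x, hx, hx'⟩ := H4.ThinCode.hit i v ((hne v).1 hc)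
    exact ⟨e x, by simpa using hx, by simpa [hf] using hx'⟩
  · rintro ⟨S, hS⟩
    have key : ∀ (T : Finset (Fin (Fintype.card (H4.ThinCode.Idx L d)))) v,
        (T.filter (fun x => f v x ≠ 0)).card =
          ((T.map e.symm.toEmbedding).filter (fun x => H4.ThinCode.enc L d v x ≠ 0)).card := by
      intro T v
      rw [filter_map, card_map]
      rfl
    obtain ⟨v, hv, h1, h2⟩ := H4.ThinCode.main hd (S.map e.symm.toEmbedding) (by
      intro v hv
      have h3 := (hS (f v) ⟨v, rfl⟩ ((hne v).2 hv)).2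
      by_contra hcon
      push Not at hcon
      have : (univ.filter (fun x => f v x ≠ 0)) ⊆ S.filter (fun x => f v x ≠ 0) := by
        intro x hx
        rw [mem_filter] at hx ⊢
        refine ⟨?_, hx.2⟩
        by_contra hxS
        exact hx.2 (hcon (e.symm x) (by simpa using hxS))
      have h4 := card_le_card this
      unfold hammingNorm at h3
      omega)
    have h3 := (hS (f v) ⟨v, rfl⟩ ((hne v).2 hv)).1
    unfold hammingNorm at h3
    rw [key, key, map_univ_equiv] at h3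
    have h5 : ((L + d : ℕ) : ℝ) ≤ _ := Nat.cast_le.2 h2
    have h6 : (_ : ℝ) ≤ ((d : ℕ) : ℝ) := Nat.cast_le.2 h1
    rw [div_lt_iff₀ hα] at hL
    push_cast at h5
    have h7 : (0 : ℝ) ≤ d := Nat.cast_nonneg d
    nlinarith [mul_le_mul_of_nonneg_left h5 hα.le]

end Pool.Agent.Results.MP_d2d48a_co.Counter
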